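import Pool.Agent.Helper74.FP.Goals

/-!
# Project FP, packet F4: the core
-/

set_option autoImplicit false

namespace Pool.Agent.Helper27.FP

open Pool.Agent.Helper52.Wq2 Pool.Agent.Helper74.FP Monoid Monoid.CoprodI

universe u

theorem conn_image {V W : Type*} {G : SimpleGraph V} {G' : SimpleGraph W} {s : Set V}
    (h : Conn G s) (f : V → W) (hf : ∀ a b, G.Adj a b → G'.Adj (f a) (f b)) :
    Conn G' (f '' s) := by
  obtain ⟨h1, h2⟩ := h
  refine ⟨h1.image f, ?_⟩
  rintro A hA ⟨x, hx⟩ hcl
  obtain ⟨v, hv, rfl⟩ := hA hx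
  have h3 := h2 {v | v ∈ s ∧ f v ∈ A} (fun v hv => hv.1) ⟨v, hv, hx⟩
    (fun a ha b hb hab => ⟨hb, hcl _ ha.2 _ ⟨b, hb, rfl⟩ (hf a b hab)⟩)
  rintro _ ⟨w, hw, rfl⟩
  exact (h3 hw).2

theorem adj_of {ι : Type} {B : ι → Type u} [∀ i, Group (B i)] (T : ∀ i, Set (B i)) (i : ι)
    (y : CoprodI B) (b b' : B i) (h : (cayL (T i)).Adj b b') :
    (cayL (US T)).Adj (of b * y) (of b' * y) := by
  unfold cayL at h ⊢
  rw [SimpleGraph.fromRel_adj] at h ⊢
  obtain ⟨h1, h2⟩ := h
  refine ⟨fun h3 => h1 (of_injective i (mul_right_cancel h3)), ?_⟩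
  have key : ∀ c c' : B i, c' * c⁻¹ ∈ T i → (of c' * y) * (of c * y)⁻¹ ∈ US T := by
    intro c c' hc
    refine ⟨i, _, hc, ?_⟩
    rw [map_mul, map_inv]
    group
  rcases h2 with h2 | h2
  · exact Or.inl (key _ _ h2)
  · exact Or.inr (key _ _ h2)

section

variable {ι : Type} {A B : ι → Type u} [∀ i, Group (A i)] [∀ i, Group (B i)]

/-- The map on words. -/
def fw (r : ∀ i, A i → B i) (hr : ∀ i a, a ≠ 1 → r i a ≠ 1) (w : Word A) : Word B where
  toList := w.toList.map fun l => ⟨l.1, r l.1 l.2⟩
  ne_one := by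
    intro l hl
    obtain ⟨l', hl', rfl⟩ := List.mem_map.1 hl
    exact hr _ _ (w.ne_one _ hl')
  chain_ne := by
    rw [List.isChain_map]
    exact w.chain_ne

theorem fst_fw (r : ∀ i, A i → B i) (hr : ∀ i a, a ≠ 1 → r i a ≠ 1) (w : Word A) :
    (fw r hr w).fstIdx = w.fstIdx := by
  unfold Word.fstIdx
  show Option.map Sigma.fst (w.toList.map fun l : Σ i, A i => (⟨l.1, r l.1 l.2⟩ : Σ i, B i)).head? = _
  rw [List.head?_map, Option.map_map]
  rfl

theorem fw_inj (r : ∀ i, A i → B i) (hr : ∀ i a, a ≠ 1 → r i a ≠ 1)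
    (hi : ∀ i, Function.Injective (r i)) : Function.Injective (fw r hr) := by
  intro w w' h
  apply Word.ext
  have h1 : w.toList.map (fun l : Σ i, A i => (⟨l.1, r l.1 l.2⟩ : Σ i, B i)) =
      w'.toList.map (fun l : Σ i, A i => (⟨l.1, r l.1 l.2⟩ : Σ i, B i)) :=
    congrArg Word.toList h
  refine List.map_injective_iff.2 ?_ h1
  rintro ⟨i, a⟩ ⟨j, b⟩ hab
  simp only [Sigma.mk.injEq] at hab
  obtain ⟨rfl, h2⟩ := hab
  rw [hi i (eq_of_heq h2)]

variable [DecidableEq ι] [∀ i, DecidableEq (A i)] [∀ i, DecidableEq (B i)]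

omit [DecidableEq ι] in
theorem fw_rcons (r : ∀ i, A i → B i) (hr : ∀ i a, a ≠ 1 → r i a ≠ 1) (hr1 : ∀ i, r i 1 = 1)
    (i : ι) (p : Word.Pair A i) :
    fw r hr (Word.rcons p) = Word.rcons ⟨r i p.head, fw r hr p.tail,
      by rw [fst_fw]; exact p.fstIdx_ne⟩ := by
  unfold Word.rcons
  by_cases h : p.head = 1
  · rw [dif_pos h, dif_pos (by show r i p.head = 1; rw [h, hr1])]
  · rw [dif_neg h, dif_neg (hr i _ h)]
    apply Word.ext
    simp [fw, Word.cons]

end

theorem f4 : F4Stmt.{u} := by
  intro ι A B _ _ S T V hS hT hV h1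
  classical
  have hne : ∀ i a, ∃ b, b ∈ V i a := fun i a => ((hV i).1 a).1
  have hdis : ∀ i a a' b, b ∈ V i a → b ∈ V i a' → a = a' := fun i a a' b => (hV i).2.1 a a' b
  let r : ∀ i, A i → B i := fun i a => if a = 1 then 1 else (hne i a).choose
  have r1 : ∀ i, r i 1 = 1 := fun i => if_pos rfl
  have rmem : ∀ i a, r i a ∈ V i a := by
    intro i a
    by_cases h : a = 1
    · subst h
      rw [r1]
      exact h1 i
    · show (if a = 1 then 1 else (hne i a).choose) ∈ V i a
      rw [if_neg h]
      exact (hne i a).choose_spec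
  have hr : ∀ i a, a ≠ 1 → r i a ≠ 1 := by
    intro i a ha h
    apply ha
    refine hdis i a 1 1 ?_ (h1 i)
    rw [← h]
    exact rmem i a
  have rinj : ∀ i, Function.Injective (r i) := by
    intro i a a' h
    refine hdis i a a' (r i a) (rmem i a) ?_
    rw [h]
    exact rmem i a'
  have finj := fw_inj r hr rinj
  -- the parts
  let part : ∀ (w : Word A) (i : ι), Set (CoprodI B) := fun w i =>
    (fun b : B i => of b * Word.prod (fw r hr (Word.equivPair i w).tail)) ''
      V i (Word.equivPair i w).head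
  have fpart : ∀ w i, Word.prod (fw r hr w) = of (r i (Word.equivPair i w).head) *
      Word.prod (fw r hr (Word.equivPair i w).tail) := by
    intro w i
    have h2 : w = Word.rcons (Word.equivPair i w) := ((Word.equivPair i).symm_apply_apply w).symm
    conv_lhs => rw [h2]
    rw [fw_rcons r hr r1, Word.prod_rcons]
  have hin : ∀ w i, Word.prod (fw r hr w) ∈ part w i := by
    intro w i
    exact ⟨r i (Word.equivPair i w).head, rmem i _, (fpart w i).symm⟩
  have hconn : ∀ w i, Conn (cayL (US T)) (part w i) := by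
    intro w i
    exact conn_image ((hV i).1 _) _ (fun a b hab => adj_of T i _ a b hab)
  let φ : Word A → Set (CoprodI B) := fun w => {Word.prod (fw r hr w)} ∪ ⋃ i, part w i
  have φconn : ∀ w, Conn (cayL (US T)) (φ w) := by
    intro w
    refine ⟨⟨_, Or.inl rfl⟩, ?_⟩
    rintro Q hQ ⟨x, hx⟩ hcl
    have hpt : ∀ i, (∃ y ∈ part w i, y ∈ Q) → part w i ⊆ Q := by
      rintro i ⟨y, hy, hyQ⟩
      have h3 := (hconn w i).2 (part w i ∩ Q) Set.inter_subset_left ⟨y, hy, hyQ⟩
        (fun a ha b hb hab => ⟨hb, hcl a ha.2 b (Or.inr (Set.mem_iUnion.2 ⟨i, hb⟩)) hab⟩)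
      exact fun z hz => (h3 hz).2
    have hf : Word.prod (fw r hr w) ∈ Q := by
      rcases hQ hx with h3 | h3
      · rw [Set.mem_singleton_iff] at h3
        rwa [← h3]
      · obtain ⟨i, hi⟩ := Set.mem_iUnion.1 h3
        exact hpt i ⟨x, hi, hx⟩ (hin w i)
    rintro y (hy | hy)
    · rw [Set.mem_singleton_iff] at hy
      rwa [hy]
    · obtain ⟨i, hi⟩ := Set.mem_iUnion.1 hy
      exact hpt i ⟨_, hin w i, hf⟩ hi
  have hfst : ∀ w i, (fw r hr (Word.equivPair i w).tail).fstIdx ≠ some i := by
    intro w i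
    rw [fst_fw]
    exact (Word.equivPair i w).fstIdx_ne
  -- decoding
  have dec : ∀ w i x, x ∈ part w i → ∃ b ∈ V i (Word.equivPair i w).head,
      Word.equivPair i (Word.equiv x) = ⟨b, fw r hr (Word.equivPair i w).tail, hfst w i⟩ := by
    rintro w i _ ⟨b, hb, rfl⟩
    refine ⟨b, hb, ?_⟩
    have h2 : (of b * Word.prod (fw r hr (Word.equivPair i w).tail) : CoprodI B) =
        Word.prod (Word.rcons ⟨b, fw r hr (Word.equivPair i w).tail, hfst w i⟩) := by
      rw [Word.prod_rcons]
    show Word.equivPair i (Word.equiv (of b * Word.prod (fw r hr (Word.equivPair i w).tail))) = _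
    rw [h2]
    have h3 : ∀ v : Word B, Word.equiv (Word.prod v) = v := fun v => Word.equiv.apply_symm_apply v
    rw [h3]
    exact (Word.equivPair i).apply_symm_apply _
  have dec2 : ∀ w i x, x ∈ part w i → (Word.equiv x).fstIdx ≠ some i →
      x = Word.prod (fw r hr w) := by
    intro w i x hx hi
    obtain ⟨b, hb, h2⟩ := dec w i x hx
    rw [Word.equivPair_eq_of_fstIdx_ne hi] at h2
    simp only [Word.Pair.mk.injEq] at h2
    obtain ⟨h3, h4⟩ := h2
    have h5 : (Word.equivPair i w).head = 1 := by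
      refine hdis i _ _ b hb ?_
      rw [← h3]
      exact h1 i
    rw [fpart w i, h5, r1, map_one, one_mul, ← h4]
    exact (Word.equiv.symm_apply_apply x).symm
  have hall : ∀ w x, x ∈ φ w → ((Word.equiv x).fstIdx = none → x = Word.prod (fw r hr w)) ∧
      ∀ i, (Word.equiv x).fstIdx = some i → x ∈ part w i := by
    intro w x hx
    have h2 : x = Word.prod (fw r hr w) ∨ ∃ i, x ∈ part w i := by
      rcases hx with h3 | h3
      · exact Or.inl h3
      · exact Or.inr (Set.mem_iUnion.1 h3)
    refine ⟨?_, ?_⟩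
    · intro h3
      rcases h2 with h2 | ⟨i, h2⟩
      · exact h2
      · exact dec2 w i x h2 (by rw [h3]; exact (Option.some_ne_none i).symm)
    · intro i h3
      rcases h2 with h2 | ⟨j, h2⟩
      · rw [h2]
        exact hin w i
      · by_cases hj : j = i
        · subst hj
          exact h2
        · rw [dec2 w j x h2 (by rw [h3]; exact fun h => hj (Option.some.inj h).symm)]
          exact hin w i
  refine ⟨fun g => φ (Word.equiv g), fun g => φconn _, ?_, ?_⟩
  · intro g g' x hx hx'
    apply Word.equiv.injective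
    rcases h2 : (Word.equiv x).fstIdx with _ | i
    · have h3 := (hall _ x hx).1 h2
      have h4 := (hall _ x hx').1 h2
      rw [h3] at h4
      exact finj (Word.equiv.symm.injective h4)
    · obtain ⟨b, hb, h3⟩ := dec _ i x ((hall _ x hx).2 i h2)
      obtain ⟨b', hb', h4⟩ := dec _ i x ((hall _ x hx').2 i h2)
      rw [h3] at h4
      simp only [Word.Pair.mk.injEq] at h4
      obtain ⟨h5, h6⟩ := h4
      apply (Word.equivPair i).injective
      apply Word.Pair.ext
      · refine hdis i _ _ b hb ?_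
        rw [h5]
        exact hb'
      · exact finj h6
  · have key : ∀ g g' : CoprodI A, g' * g⁻¹ ∈ US S → ∃ a ∈ φ (Word.equiv g),
        ∃ b ∈ φ (Word.equiv g'), (cayL (US T)).Adj a b := by
      rintro g g' ⟨i, s, hs, h2⟩
      have h3 : g' = of s * g := by rw [← h2, inv_mul_cancel_right]
      have h4 : Word.equiv g' = of s • Word.equiv g := by
        have he : ∀ x : CoprodI A, Word.prod (Word.equiv x) = x :=
          fun x => Word.equiv.symm_apply_apply x
        apply (Word.equiv (M := A)).symm.injective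
        show Word.prod (Word.equiv g') = Word.prod (of s • Word.equiv g)
        rw [Word.prod_smul, he, he, h3]
      have h5 := Word.equivPair_smul_same s (Word.equiv g)
      rw [← h4] at h5
      have h6 : (cayL (S i)).Adj (Word.equivPair i (Word.equiv g)).head
          (Word.equivPair i (Word.equiv g')).head := by
        rw [h5]
        unfold cayL
        rw [SimpleGraph.fromRel_adj]
        refine ⟨?_, Or.inl ?_⟩
        · intro h
          apply (hS i).2.2
          have h7 : s = 1 := by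
            have h8 : 1 * (Word.equivPair i (Word.equiv g)).head =
                s * (Word.equivPair i (Word.equiv g)).head := by rw [one_mul]; exact h
            exact (mul_right_cancel h8).symm
          rw [← h7]
          exact hs
        · rw [mul_inv_cancel_right]
          exact hs
      obtain ⟨b, hb, b', hb', hbb⟩ := (hV i).2.2 _ _ h6
      refine ⟨of b * Word.prod (fw r hr (Word.equivPair i (Word.equiv g)).tail),
        Or.inr (Set.mem_iUnion.2 ⟨i, b, hb, rfl⟩),
        of b' * Word.prod (fw r hr (Word.equivPair i (Word.equiv g')).tail),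
        Or.inr (Set.mem_iUnion.2 ⟨i, b', hb', rfl⟩), ?_⟩
      have h7 : (Word.equivPair i (Word.equiv g')).tail = (Word.equivPair i (Word.equiv g)).tail := by
        rw [h5]
      rw [h7]
      exact adj_of T i _ b b' hbb
    intro g g' hg
    unfold cayL at hg
    rw [SimpleGraph.fromRel_adj] at hg
    rcases hg.2 with h2 | h2
    · exact key g g' h2
    · obtain ⟨a, ha, b, hb, hab⟩ := key g' g h2
      exact ⟨b, hb, a, ha, hab.symm⟩

end Pool.Agent.Helper27.FP
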